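import Mathlib
import Pool.Agent.K6.H94.XB.TRes

/-!
# Tate classes on the products `X ^ n × B ^ r` of bounded degree in `B`: an **explicit** number of factors for
all abelian varieties `X` of dimension `g` and all abelian varieties `B` of arbitrary dimension

**Theorem.** Let `g` and `w` be natural numbers, `c = 2 lcm (1, …, 2 g)` and
`T(w) = (2 (4 g ^ 2 + 2) (c (w + 1) / 2 + 1)) ^ (2 (4 g ^ 2 + 1))`. There is a number `N = N(g)` with the
following property. Let `k` be a number field, `X` an abelian variety of dimension `g` and `B` an abelian
variety of **arbitrary** dimension over `k`, and assume the Tate conjecture for the powers `X ^ m`,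
`m ≤ N` (for example, for all the powers of `X`). If the Tate conjecture holds for `X ^ T(w) × B ^ w`
(over all finite extensions of `k`), then for all `n` and `r` all Tate classes on `X ^ n × B ^ r` which
have degree at most `w` in `B` (i.e. in `⊕_{j ≤ w} H^*(X ^ n) ⊗ H^j(B ^ r)`) are algebraic.

For fixed `X` and `B` the existence of such an `N` follows from Hilbert's finiteness theorem. The point is
that `T(w)` is explicit and `N` and `T(w)` do not depend on `B`, whose dimension is not bounded, nor on the
field, nor on `X` among all abelian varieties of dimension `g`, and nothing is assumed about the endomorphisms or the monodromy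
groups of `X` and `B`. (The starting files and the earlier results of the team treat abelian varieties with
special endomorphism algebras, slope types or angle ranks, or fixed powers.)

*The representations.* Let `Γ` be the Galois group (over a finite extension of `k` for which
`ℚ_ℓ(1/2)` exists), `K = ℚ_ℓ`, `V = H^1(X, ℚ_ℓ)(1/2)` with the action `ρ`, `W = H^1(B, ℚ_ℓ)(1/2)` with
the action `τ`, and `B(x, y) = ∫ x ∪ y ∪ c_1(L)^(g - 1)` for a polarisation `L` of `X`, a perfect form by
the hard Lefschetz theorem. The cohomology of `X ^ n × B ^ r` is a sum of tensor products of exterior
powers of `H^1(X)` and `H^1(B)`, which are, by algebraic correspondences (sums, diagonals and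
multiplication by integers), direct summands of the `V^{⊗ i} ⊗ W^{⊗ j}`, and
`V^{⊗ i} ⊗ W^{⊗ j}` is the part of multidegree `(1, …, 1)` of the cohomology of `X ^ i × B ^ j`. So the
statement is about the Tate classes in all the `V^{⊗ n} ⊗ W^{⊗ j}` with `j ≤ w` (`IsTateM` for the
representation `tpow τ j`); there are none if `n + j` is odd.

*Algebraic classes* (`IsAbelianSystem`). The algebraic classes in `V^{⊗ n}` (`Cl n`) and in
`V^{⊗ n} ⊗ W^{⊗ j}` (`S j n`) are stable under products, under permutations of the factors, with the
usual sign (all elements of `V` are odd), and under the correspondences
`y ↦ pr_*(pr^* a ∪ pr^* y ∪ ∏ pr_i^* c_1(L)^(g - 1))`, which are given by contraction with `B`. The theorem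
holds for all systems of subspaces with these properties.

*The cocharacters.* The slopes of the Frobenius elements at the places of good reduction define rational
cocharacters of the `ℓ`-adic monodromy groups (Serre's Frobenius tori), with weights `slope - 1/2` on `V`
and `W`, between `-1/2` and `1/2`. The slopes on `V` have denominators at most `2 g`; with
`c = 2 lcm(1, …, 2 g)` the multiples by `c` have integral weights between `-c/2` and `c/2` (`w₀ = c/2`),
and so they belong to finitely many conjugacy classes under the connected monodromy group `G` of `X`, a
reductive group (Faltings). The classes which occur for infinitely many places generate `G`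
(`IsGenerated`), by the Weil conjectures and the density of the Frobenius elements: for the places outside a
finite set a fixed power of the Frobenius element would be unipotent in the quotient. The cocharacters
lift to the monodromy group of `X × B`, for all places outside a finite set, with weights between `-c/2`
and `c/2` on `W` (`LevelLE` with `u = c/2`; the integer `e` takes care of the denominators of the slopes on
`W`, which are not bounded). Up to conjugation in `GL_{2g}` over an algebraically closed field there are
only finitely many connected reductive groups generated by cocharacters with weights between `-w₀` and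
`w₀`, and finitely many classes of such cocharacters in each of them (classical, not formalised; the Lean
theorem gives one `N` for each set `P` of cocharacters up to conjugation, for all fields `K`, all groups
`Γ` and all `ρ`, `τ`), so `N` depends only on `g`.

*The proof.* The tensor power `W^{⊗ j}` has level at most `j u` (`level_tpow`). The theorem for all
representations of bounded level is `Pool.Agent.K6.H94.XB.main_uniformX`; the companion for even classes is
`MP_2a05c8_ag.OnePowerForAllSmooth` (products of arbitrary varieties with powers, where the second factor
has bounded dimension; here its dimension is not bounded, only the degree of the classes). The matrix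
coefficients of level at most `w` on `G` are polynomials of **explicitly bounded degree** in the matrix
entries (`Pool.Agent.K6.H94.XB.fnl`): at the generic product of the cocharacters (helper19) they are
Laurent polynomials with exponents between `-w` and `w`; counting dimensions gives a relation of bounded
degree between `s`, `θ + s f` and independent linear forms in the entries, where `θ` is a primitive element;
differentiation with respect to `s` gives `f = P / Q` with `P`, `Q` of bounded degree; the space of common
denominators is stable under translations by `G`, and this gives `f` as a polynomial of bounded degree in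
the entries of `x` and `x⁻¹`, which is linear in `x` since `G` preserves the form. (Pieces by helper37,
helper61, helper35, helper44, helper40, helper39, helper78.) The double commutant theorem (helper19) gives
a decomposition of the Tate classes into images, under correspondences, of Tate classes with at most
`T` factors `V`, and the invariants of `G` in the `V^{⊗ n}` are generated in bounded degree by Weyl and
Hilbert (helper30).
-/

set_option autoImplicit false

namespace Pool.Agent.Results.MP_90d181_ag.BoundedDegreeInOneFactor

open Matrix Pool.Agent.K6.H94.TG

/-- **Tate classes of given degree in the second factor.** Let `P` be a family of gradings of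
`C^b` with weights between `-w₀` and `w₀` whose cocharacters generate a reductive group. There is one `N`
such that for all subfields `K` of `C`, all representations `V = K^b` of groups `Γ` with an invariant
perfect form `B` whose connected monodromy group is generated by a conjugate of `P`, all `u` and **all**
representations `W` of `Γ` of level at most `u`, of arbitrary dimension: the Tate classes in all `V^{⊗ n}`
are generated by those with `n ≤ N`, and, with these, for each `j` the Tate classes in all
`V^{⊗ n} ⊗ W^{⊗ j}` are generated by those with
`n ≤ (2 (b ^ 2 + 2) (w₀ + j u + 1)) ^ (2 (b ^ 2 + 1))`. -/
theorem result {C : Type} [Field C] [CharZero C] {ι : Type} [Fintype ι] [DecidableEq ι] {A : Type}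
    (P : A → ℤ → Matrix ι ι C) (w₀ : ℕ) (hP : ∀ a, IsGrading (P a) w₀)
    (hred : GeneratesReductive P w₀) :
    ∃ N : ℕ, ∀ (K : Type) [Field K] [Algebra K C] (Γ : Type) [Group Γ] (ρ : Γ →* Matrix ι ι K)
      (B : Matrix ι ι K) (g : (Matrix ι ι C)ˣ),
      (∀ γ, (ρ γ)ᵀ * B * ρ γ = B) → IsUnit B → IsGenerated ρ (conj g P) w₀ →
      ∀ (u : ℕ) (μ : Type) [Fintype μ] [DecidableEq μ] (τ : Γ →* Matrix μ μ K),
      LevelLE ρ (conj g P) w₀ τ u →
      ∀ (Cl : ∀ n, Submodule K ((Fin n → ι) → K))
        (S : ∀ j n, Submodule K ((Fin n → ι) → (Fin j → μ) → K)),
        IsAbelianSystem B Cl S → (∀ m ≤ N, ∀ x, IsTate ρ m x → x ∈ Cl m) →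
        (∀ n x, IsTate ρ n x → x ∈ Cl n) ∧
          ∀ j, (∀ m ≤ (2 * (Fintype.card ι ^ 2 + 2) * (w₀ + j * u + 1)) ^
              (2 * (Fintype.card ι ^ 2 + 1)), ∀ y, IsTateM ρ (tpow τ j) m y → y ∈ S j m) →
            ∀ n y, IsTateM ρ (tpow τ j) n y → y ∈ S j n :=
  Pool.Agent.K6.H94.XB.main_abelianX hP hred

end Pool.Agent.Results.MP_90d181_ag.BoundedDegreeInOneFactor
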