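import Mathlib
import Pool.Agent.TH170.FT.Tate
import Pool.Agent.Q29.EP.Rows

/-!
# The Tate conjecture for the powers of abelian varieties over number fields with a Frobenius element
of one half of all slope types of every CM field of degree `2 r ^ k`

Let `A` be an abelian variety over a number field, of any dimension and with arbitrary endomorphisms,
which has good reduction at some place `v`, with a residue field of `p ^ a` elements. Suppose that
the characteristic polynomial of the Frobenius element at `v` is the product of the minimal
polynomials of Weil numbers `π i` that generate CM fields `K i` of degree `2 g i` (`HasFrobenius`);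
so `dim A = ∑ i, g i`. Nothing is assumed about the Galois groups of the fields `K i`; they are
pairwise independent: for `i ≠ k` and all complex embeddings `φ` of `K i` and `ψ` of `K k` some
automorphism of `ℂ` is the identity on `φ (K i)` and the complex conjugation on `ψ (K k)` (this is
no condition if there is only one field).

We fix an isomorphism `ν` of the algebraic closure of `ℚ_p` with `ℂ`; it defines a `p`-adic valuation
of `ℂ`, with the value one at `p`. Let `M i` be a function with integral values on the complex
embeddings of `K i`, invariant under complex conjugation (the weights). A CM type `Φ i` of `K i` (a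
choice of one element out of each complex conjugate pair of embeddings; there are `2 ^ (g i)` types),
`M i` and a real number `κ ≠ 0` prescribe the slopes `(a + κ M) / 2` (at the embeddings in `Φ i`) and
`(a - κ M) / 2` (outside of `Φ i`) of a Weil number in `K i` (`IsOfType`). The case `M = 1`, `κ = a` is
the case of ordinary reduction.

**The property `Holds` of the family `Φ`**: for all abelian varieties `A` as above with Weil numbers
`π i` of the slope types `Φ i`, `M i`, all prime numbers `ℓ` and all `n` and `m`, each Tate class in
`H^{2 m}(A^n, ℚ_ℓ (m))` lies in the `ℚ_ℓ`-linear span of the classes of algebraic cycles. That is,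
the Tate conjecture holds for all powers of `A`, over all finite extensions.

In the formal statement `V` is the rational Tate module with the action `ρ` of the Galois group and
the Weil pairing `ω` of a polarization (`IsTateModule`; with the semisimplicity theorem of Faltings),
`χ` is the cyclotomic character. The cohomology of `A ^ n` consists of the alternating forms on
`V ^ n`; a Tate class is a form that is fixed by a subgroup of finite index of the Galois group. The
classes of cycles of codimension `m` are given by a set `C n m`; what is used is that the Tate classes
of degree two are combinations of classes of divisors (Faltings) and that intersections of divisors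
are algebraic cycles (`IsCycleClasses`).

**The theorem.** Let `E` be **any CM field of degree `2 g = 2 r ^ k`**, `r` a prime number, of
degree at least `16` if `r = 2`. Nothing is assumed about the Galois group of the normal closure of
`E`, and nothing about the subfields of `E`.

* (`HalfOfAll`) For all weights `M` (odd if `r = 2`; if `r` is odd then `r` may divide some, but not
  all of them) the property is true for **at least one half of all `2 ^ g` types** of `E`.
* (`MostWithWeightsOne`) For the weights `M = 1` (for instance for ordinary reduction) it is true
  for at least `(1 - 1 / r) 2 ^ g` of the types.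
* (`OneOfTwo`) There is a set `B` of embeddings of `E`, stable under complex conjugation, such that
  for **every** type `Φ` it is true for `Φ` or for the symmetric difference of `Φ` and `B`.
* (`SixteenPercent`) There is a number `g₀` such that for every CM field that is **abelian over
  `ℚ`**, of any degree `2 g ≥ 2 g₀`, and all odd weights it is true for at least 16 percent of all
  `2 ^ g` types; again nothing is assumed on the subfields.

All this is proved for finitely many pairwise independent fields `K i`; the proportions are then
multiplied. The bounds for the numbers of the exceptional types in the starting files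
(`AlmostAllFrobeniusTypes`, `AllCMFields`) say nothing about fields with many CM subfields, for
instance about multiquadratic fields.

The proof combines two parts of the starting files: the absence of linear relations between the
signed weights of these types (`Q29/EP`), which was applied there to motivic cohomology over finite
fields, and the theorem that this implies that all Tate classes are generated by those of degree two
(`TH170/FT`, `H204R3/GP`).
-/

set_option autoImplicit false

namespace Pool.Agent.Results.MP_90d181_ag.HalfOfAllTypes

open NumberField Module Pool.Agent.H204R3.CM Pool.Agent.H977R3.CM Pool.Agent.TH170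
  Pool.Agent.Q29.EP

open Pool.Agent.H204R3.GP

/-- The Tate conjecture for all powers of the abelian varieties with a Frobenius element whose
characteristic polynomial is the product of the minimal polynomials of Weil numbers `π i` for `p ^ a`
with the slope types `Φ i`, `M i`, for the prime number `ℓ`. -/
def HoldsAt {p : ℕ} [Fact p.Prime] (ν : PadicAlgCl p ≃+* ℂ) {I : Type} [Fintype I]
    (K : I → Type) [∀ i, Field (K i)] [∀ i, NumberField (K i)] [∀ i, IsCMField (K i)]
    (M : ∀ i, (K i →+* ℂ) → ℤ) (Φ : ∀ i, Set (K i →+* ℂ)) (a : ℕ) (π : ∀ i, K i)
    (ℓ : ℕ) [Fact ℓ.Prime] : Prop :=
  ∀ (V Γ : Type) [AddCommGroup V] [Module ℚ_[ℓ] V] [FiniteDimensional ℚ_[ℓ] V] [Group Γ]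
    (ρ : Representation ℚ_[ℓ] Γ V) (χ : Γ →* ℚ_[ℓ]) (ω : V →ₗ[ℚ_[ℓ]] V →ₗ[ℚ_[ℓ]] ℚ_[ℓ])
    (D : ∀ n : ℕ, Set ((Fin n → V) [⋀^Fin 2]→ₗ[ℚ_[ℓ]] ℚ_[ℓ]))
    (C : ∀ n m : ℕ, Set ((Fin n → V) [⋀^Fin m × Fin 2]→ₗ[ℚ_[ℓ]] ℚ_[ℓ])),
    FT.IsOfType ν a K M Φ π → FT.IsTateModule ρ χ ω → FT.IsCycleClasses ρ χ D C →
      FT.HasFrobenius ρ χ p a π → ∀ (n m : ℕ) (f : (Fin n → V) [⋀^Fin m × Fin 2]→ₗ[ℚ_[ℓ]] ℚ_[ℓ]),
        IsTateClass ρ χ m f → f ∈ Submodule.span ℚ_[ℓ] (C n m)

/-- The Tate conjecture for all powers of all abelian varieties with a Frobenius element whose
characteristic polynomial is the product of the minimal polynomials of Weil numbers with the slope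
types `Φ i`, `M i`, for all prime numbers `ℓ`. -/
def Holds {p : ℕ} [Fact p.Prime] (ν : PadicAlgCl p ≃+* ℂ) {I : Type} [Fintype I]
    (K : I → Type) [∀ i, Field (K i)] [∀ i, NumberField (K i)] [∀ i, IsCMField (K i)]
    (M : ∀ i, (K i →+* ℂ) → ℤ) (Φ : ∀ i, Set (K i →+* ℂ)) : Prop :=
  ∀ (a : ℕ) (π : ∀ i, K i) (ℓ : ℕ) [Fact ℓ.Prime], 0 < a → HoldsAt ν K M Φ a π ℓ

/-- The property `Holds` as a property of families of slope types. -/
def P : TypeProperty := fun _ _ ν _ _ K _ _ _ M Φ => Holds ν K M Φ

theorem withoutRelations : WithoutRelations P := by
  intro p _ ν I _ K _ _ _ M Φ hind hMc hΦ hno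
  exact fun _ _ _ _ ha _ _ _ _ _ _ _ _ _ _ _ hπ hR hC hF n m f hf =>
    FT.tate_of_types hind hMc hΦ
      (fun i => Pool.Agent.Q29.DP.notMem_degTypes_of_noRelations (hno i)) ha hπ hR hC hF n m f hf

/-- **The Tate conjecture for the powers of abelian varieties over number fields with a Frobenius
element of one half of all slope types of every CM field of degree `2 r ^ k`, and of 16 percent of the
slope types of all abelian CM fields of large degree.** -/
theorem result : HalfOfAll P ∧ MostWithWeightsOne P ∧ OneOfTwo P ∧ SixteenPercent P :=
  ⟨halfOfAll withoutRelations, mostWithWeightsOne withoutRelations, oneOfTwo withoutRelations,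
    sixteenPercent withoutRelations⟩

end Pool.Agent.Results.MP_90d181_ag.HalfOfAllTypes
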