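import Mathlib
import Pool.Agent.K6.H79.TX.Rank

/-!
# The Tate conjecture for the products of the powers of an abelian variety with a Frobenius element of
full angle rank and an arbitrary variety which is unrelated to it at one place

Let `A` be an abelian variety over a number field `k`, of any dimension `g` and with arbitrary
endomorphisms, and let `v` be a place of `k` where `A` has good reduction, with a residue field with
`q = p ^ a` elements. Let `γ` be a Frobenius element at `v`. Its characteristic polynomial `P` on the
Tate module of `A` is supposed to be the product of the minimal polynomials of Weil numbers `π i`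
for `q` that generate CM fields `K i`, and the family `π` has **full angle rank** (`FullAngleRank`): in
a multiplicative relation between the `2 g` complex conjugates of the numbers `π i` complex
conjugate numbers have the same exponents. So the Frobenius torus at `v` has the rank `g + 1`. This is
true for instance if the numbers `π i` have nondegenerate slope types, for pairwise independent
fields `K i` (`full_of_neat` in `K6/H79/TX/Rank` together with `neat_of_types` of the starting files),
and this is the case for almost all or for one half of all slope types in many cases (see the starting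
files and `HalfOfAllTypes`).

Let `X` be **any variety** over `k`; for instance **any other abelian variety** `B`, and then `A ^ n × X` is
an abelian variety. Let `H j` be the `ℓ`-adic cohomology of `X` and `σ j` the action of the Galois
group `Γ` on it. The condition on `X` is a condition at the single place `v` (`UnrelatedAt`): the
geometric Frobenius element has a rational characteristic polynomial on `H j` (as is known for smooth
projective varieties with good reduction at `v`), and all its complex roots `β` are unrelated to
`P`: for each root `α` of `P` there is an automorphism `τ` of `ℂ` with `τ α = conj α` that fixes some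
positive power of `β`. The automorphism may depend on `α`. For instance this is true if a power of `β`
lies in a totally real field, or in a number field which is linearly disjoint from the normal
closures of the fields `K i`; no condition is imposed on the relations between the eigenvalues of `X`.

**The theorem** (`TateEquivalence`). For all `n` the conjecture of Tate for `A ^ n × X`, in all
degrees, is equivalent to the conjecture of Tate for `X`: each Tate class on `A ^ n × X` (a class
fixed by an open subgroup of the Galois group) is a linear combination of algebraic classes if and
only if each Tate class on `X` is.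

So if `B` is an abelian variety such that the conjecture of Tate holds for all its powers, then it
holds for all `A ^ n × B ^ m`, if only for one place `v` as above the Frobenius eigenvalues of `B` are
unrelated to those of `A`. Nothing is assumed on the Mumford-Tate group, the endomorphisms or the
monodromy group of `B` (or of `X`), and exotic Tate classes on `X` are allowed.

In the formal statement `V` is the rational Tate module of `A` with the action `ρ` of the Galois
group `Γ` and the Weil pairing `ω` of a polarization (`IsTateModule`; with the semisimplicity theorem of
Faltings), and `χ` is the cyclotomic character. The cohomology of `A ^ n` consists of the alternating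
forms on `V ^ n`, so that a class in `H ^ i(A ^ n) ⊗ H ^ j(X)` is an alternating form `f` in `i`
variables on `V ^ n` with values in `H j`; it is a Tate class (for `i + j = 2 r`) if
`f (s v) = χ(s) ^ r • σ(s) (f v)` for the elements `s` of a subgroup of finite index (`IsTateIn`). By the
formula of Künneth `TateForProduct` is the conjecture of Tate for `A ^ n × X`. The sets `CA n m`,
`CX r` and `C n i j` are the classes of algebraic cycles on `A ^ n`, on `X` and (their Künneth components)
on `A ^ n × X`. What is used of them is that the Tate classes of degree two on `A ^ n` are combinations
of classes of divisors (Faltings), that intersections of divisors are algebraic cycles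
(`IsCycleClasses`), that products of cycles are cycles, and that cycles on `A ^ n × X` can be
restricted to `{0} × X` (`IsCyclesOnProduct`).

## Proof

Let `f` be a Tate class as above, fixed by a subgroup `Δ` of finite index, and let `θ` be the product of
the eigenvalues of `γ` at `i` eigenvectors at which `f` does not vanish. Then for some `N > 0` the number
`(θ β / q ^ r) ^ N` is one for an eigenvalue `β` of the geometric Frobenius element on `H j`. The norm
argument for unrelated numbers shows that `θ ^ (2 M) = q ^ (i M)` for some `M > 0`; by the full angle
rank `i = 2 m` is even and `θ = q ^ m`. So `f (γ v) = q ^ m f (v)`. The same is true for all translates of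
`f` by elements of `Γ`, and so `f (s v) = χ(s) ^ m f (v)` for all `s` in the **normal closure** `N` of `γ`.
Hence the coordinates of `f` are Tate classes on `A ^ n` for the group `N`. By the theorem of Clifford `V`
is a semisimple representation of `N` and of its subgroups of finite index, and so the criterion of the
starting files, which needs only one Frobenius element, can be applied to `N`: the coordinates are
generated by Tate classes of degree two for `N`. These are given by endomorphisms `c` of `V` that commute
with a subgroup of finite index of `N`. All conjugates of `c` under `Γ` are also of this kind, so that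
they are diagonal for the same basis of eigenvectors of `γ`, and they have the same eigenvalues; thus
there are only finitely many, and `c` commutes with a subgroup of finite index of `Γ`. So by Faltings
the coordinates of `f` are combinations of products of divisors. Finally a subgroup of finite index
acts on the coordinates of `f` by `χ ^ m`, so that the values of `f` are Tate classes on `X`.
-/

set_option autoImplicit false

namespace Pool.Agent.Results.MP_90d181_ag.TimesUnrelated

open NumberField Module Pool.Agent.H204R3.CM Pool.Agent.H977R3.CM Pool.Agent.TH170.FW
  Pool.Agent.TH170.FT Pool.Agent.K6.H79.TX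

/-- `γ` is a Frobenius element for the field with `p ^ a` elements, and the characteristic polynomial of
`ρ γ` is the product of the minimal polynomials of the Weil numbers `π i`. -/
def IsFrobeniusAt {ℓ : ℕ} [Fact ℓ.Prime] {V Γ : Type} [AddCommGroup V] [Module ℚ_[ℓ] V]
    [FiniteDimensional ℚ_[ℓ] V] [Group Γ] (ρ : Representation ℚ_[ℓ] Γ V) (χ : Γ →* ℚ_[ℓ])
    (p a : ℕ) {I : Type} [Fintype I] {K : I → Type} [∀ i, Field (K i)] [∀ i, NumberField (K i)]
    (π : ∀ i, K i) (γ : Γ) : Prop :=
  χ γ = (p : ℚ_[ℓ]) ^ a ∧ (ρ γ).charpoly = ∏ i, (minpoly ℚ (π i)).map (algebraMap ℚ ℚ_[ℓ])

/-- The conjecture of Tate for `A ^ n × X` is equivalent to the one for `X`, for all `n`, all abelian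
varieties `A` with a Frobenius element `γ` with the Weil numbers `π i`, and all `X` unrelated to `A` at
the place of `γ`. -/
def TateEquivalence (p a : ℕ) {I : Type} [Fintype I] {K : I → Type} [∀ i, Field (K i)]
    [∀ i, NumberField (K i)] (π : ∀ i, K i) (ℓ : ℕ) [Fact ℓ.Prime] : Prop :=
  ∀ (V Γ : Type) (H : ℕ → Type) [AddCommGroup V] [Module ℚ_[ℓ] V] [FiniteDimensional ℚ_[ℓ] V]
    [Group Γ] [∀ j, AddCommGroup (H j)] [∀ j, Module ℚ_[ℓ] (H j)]
    [∀ j, FiniteDimensional ℚ_[ℓ] (H j)]
    (ρ : Representation ℚ_[ℓ] Γ V) (χ : Γ →* ℚ_[ℓ]) (ω : V →ₗ[ℚ_[ℓ]] V →ₗ[ℚ_[ℓ]] ℚ_[ℓ])
    (D : ∀ n : ℕ, Set ((Fin n → V) [⋀^Fin 2]→ₗ[ℚ_[ℓ]] ℚ_[ℓ]))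
    (CA : ∀ n m : ℕ, Set ((Fin n → V) [⋀^Fin m × Fin 2]→ₗ[ℚ_[ℓ]] ℚ_[ℓ]))
    (CX : ∀ r : ℕ, Set (H (2 * r)))
    (C : ∀ n i j : ℕ, Set ((Fin n → V) [⋀^Fin i]→ₗ[ℚ_[ℓ]] H j))
    (σ : ∀ j, Representation ℚ_[ℓ] Γ (H j)) (γ : Γ),
    IsTateModule ρ χ ω → IsCycleClasses ρ χ D CA → IsCyclesOnProduct CA CX C →
    IsFrobeniusAt ρ χ p a π γ → UnrelatedAt σ γ (∏ i, minpoly ℚ (π i)) →
    ∀ n : ℕ, (TateForProduct ρ χ σ n (C n) ↔ TateFor χ σ CX)

/-- **The Tate conjecture for the products of the powers of an abelian variety with a Frobenius
element of full angle rank and any variety which is unrelated to it at this place.** -/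
theorem result {p : ℕ} [Fact p.Prime] {a : ℕ} (ha : 0 < a) {I : Type} [Fintype I]
    {K : I → Type} [∀ i, Field (K i)] [∀ i, NumberField (K i)] [∀ i, IsCMField (K i)]
    {π : ∀ i, K i} (hgen : ∀ i, IntermediateField.adjoin ℚ {π i} = ⊤)
    (hweil : ∀ i, π i * IsCMField.complexConj (K i) (π i) = (p : K i) ^ a)
    (hfull : FullAngleRank π) (ℓ : ℕ) [Fact ℓ.Prime] : TateEquivalence p a π ℓ := by
  obtain ⟨L, hL1, hL2, j, h⟩ := Pool.Agent.H204R3.CM.exists_galois K
  have hneat := Pool.Agent.Y114.TF.neat_of_only hweil (only_of_full hfull j h)
  intro V Γ H _ _ _ _ _ _ _ ρ χ ω D CA CX C σ γ hR hCA hC hγ hun n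
  exact ⟨factor_of_product hC σ, fun hX => product_of_factor ha hgen hweil j h hneat hR hCA hC σ γ
    hγ.1 hγ.2 hun hX n⟩

end Pool.Agent.Results.MP_90d181_ag.TimesUnrelated
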