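import Mathlib
import Pool.Agent.K6.H79.TX.Final
import Pool.Agent.K6.H79.TX.Main
import Pool.Agent.K6.H79.TX.Odd

/-!
# The Tate conjecture for `A ^ n × X`, for an arbitrary abelian variety `A` and an arbitrary variety `X`
which are unrelated at many places

Let `A` be **any abelian variety** over a number field `k` and `X` **any variety** over `k`, for instance
any other abelian variety `B` or a power of it; then `A ^ n × X` is an abelian variety. Let `Γ` be the
Galois group of `k` (a compact topological group), `ρ` its continuous action on the rational Tate module
`V` of `A`, `χ` the cyclotomic character and `σ j` the action on the `ℓ`-adic cohomology `H j` of `X`.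

A Frobenius element `s` at a place with residue field of order `q` is a *good place* (`GoodPlace`) if

* the minimal polynomial `R` of `ρ s` is a rational polynomial without multiple roots, and all complex
  roots `α` of `R` satisfy `α * conj α = q` (`IsWeilAt`; this is the theorem of Weil at each place of
  good reduction);
* the geometric Frobenius element has rational characteristic polynomials on the spaces `H j`
  (as is known for smooth projective varieties with good reduction), and all their complex roots `β` are
  unrelated to `R`: for each root `α` of `R` there is an automorphism of `ℂ`, which may depend on `α`,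
  that maps `α` to `conj α` and fixes some positive power of `β` (`UnrelatedAt`).

The condition on `β` is true for instance if a power of `β` lies in a totally real field, or if for
some `m > 0` the normal closure of `ℚ(β ^ m)` meets the splitting field of `R` in a totally real field.

**The theorem.** Suppose that the good Frobenius elements are dense in `Γ` (by the theorem of Chebotarev
this is true if they are those at the places of a set of density one) and that at one good place no
product of an odd number of eigenvalues of `A` is up to a root of unity a half-integral power of `q`
(`OddPlace`). The last condition is true if for a `p`-adic valuation all the slopes of `A` at this place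
have odd denominators (`noHalf_of_slopes` in `K6/H79/TX/Odd`), for instance if `A` has ordinary reduction
there.
Then for all `n` **the conjecture of Tate for `A ^ n × X`, in all degrees, is equivalent to the conjectures
of Tate for `A ^ n` and for `X`**.

So there are no new exotic Tate classes on such products. In particular (`X = B ^ m`) the conjecture of
Tate holds for all `A ^ n × B ^ m` if and only if it holds for all powers of `A` and for all powers of
`B`. Nothing is assumed on the Mumford-Tate groups, the endomorphisms or the monodromy groups of `A`
and `X`, and `A` and `X` may have exotic Tate classes; in `TimesUnrelated` one place is sufficient, but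
there `A` is supposed to have a Frobenius element of full angle rank, so that all Tate classes on the
powers of `A` are generated by divisors.

In the formal statement a class in `H ^ i(A ^ n) ⊗ H ^ j(X)` is an alternating form `f` in `i` variables
on `V ^ n` with values in `H j`; it is a Tate class (for `i + j = 2 r`) if `f (s v) = χ(s) ^ r • σ(s) (f v)`
for the elements `s` of a subgroup of finite index (`IsTateIn`). The sets `CA n m`, `CX r` and `C n i j` are
the classes of algebraic cycles on `A ^ n`, on `X` and (their Künneth components) on `A ^ n × X`. What is
used of them is that products of cycles are cycles, and that cycles on `A ^ n × X` can be restricted to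
`{0} × X` (`IsCyclesOnProduct`) and to `A ^ n × {x}` for a point `x` of `X` (`HasPoint`); the theorem of
Faltings is not needed.

## Proof

Let `f` be a Tate class as above, fixed by a subgroup `Δ` of finite index, and let `s` be a good
Frobenius element with the eigenvectors `v 1, ..., v i` such that `f (v) ≠ 0`, and let `θ` be the product
of their eigenvalues. Then for some `N > 0` the number `(θ β / q ^ r) ^ N` is one for an eigenvalue `β` of
the geometric Frobenius element on `H j`. The norm argument for unrelated numbers shows that
`θ ^ (2 M) = q ^ (i M)` for some `M > 0`. As `θ ^ 2` is a root of a polynomial over `ℚ` with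
a degree bounded in terms of `dim V` and `i`, all whose roots are of the same kind, one can take the
same `M` for all good elements `s`. So for `i = 2 m` and all good `s` one has
`f (s ^ (2 M) v) = χ(s) ^ (2 m M) f (v)`, and by continuity this is true for all `s` in `Γ`, also for
all translates of `f` by elements of `Γ`. Hence the elements of `Γ` act on the (finite dimensional)
space of the forms with this property, after the twist by `χ ^ m`, as elements of finite order, and so,
by compactness, a subgroup of finite index acts trivially. Therefore a subgroup of finite index
acts on the coordinates of `f` by `χ ^ m`: the coordinates of `f` are Tate classes on `A ^ n`, and the values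
of `f` are Tate classes on `X`. So `f` is a combination of products of cycles if both conjectures are
true. For odd `i` the last condition on one place shows that `f = 0`.
-/

set_option autoImplicit false

namespace Pool.Agent.Results.MP_90d181_ag.UnrelatedAtManyPlaces

open Pool.Agent.K6.H79.TX

/-- The conjecture of Tate for `A ^ n × X` is equivalent to those for `A ^ n` and for `X`, for all `n`,
all abelian varieties `A` and all varieties `X` that are unrelated at the places of a dense set of
Frobenius elements. -/
def TateEquivalence (ℓ : ℕ) [Fact ℓ.Prime] : Prop :=
  ∀ (V Γ : Type) (H : ℕ → Type) [AddCommGroup V] [Module ℚ_[ℓ] V] [FiniteDimensional ℚ_[ℓ] V]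
    [Group Γ] [TopologicalSpace Γ] [IsTopologicalGroup Γ] [CompactSpace Γ]
    [∀ j, AddCommGroup (H j)] [∀ j, Module ℚ_[ℓ] (H j)] [∀ j, FiniteDimensional ℚ_[ℓ] (H j)]
    (ρ : Representation ℚ_[ℓ] Γ V) (χ : Γ →* ℚ_[ℓ]) (σ : ∀ j, Representation ℚ_[ℓ] Γ (H j))
    (CA : ∀ n m : ℕ, Set ((Fin n → V) [⋀^Fin m × Fin 2]→ₗ[ℚ_[ℓ]] ℚ_[ℓ]))
    (CX : ∀ r : ℕ, Set (H (2 * r)))
    (C : ∀ n i j : ℕ, Set ((Fin n → V) [⋀^Fin i]→ₗ[ℚ_[ℓ]] H j))
    (e₀ : H 0) (ε : H 0 →ₗ[ℚ_[ℓ]] ℚ_[ℓ]),
    ContCoef ρ → Continuous χ → IsCyclesOnProduct CA CX C → HasPoint σ CA C e₀ ε →
    Dense {s : Γ | GoodPlace ρ χ σ s} → (∃ s, OddPlace ρ χ σ s) →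
    ∀ n : ℕ, (TateForProduct ρ χ σ n (C n) ↔ TateForPower ρ χ n (CA n) ∧ TateFor χ σ CX)

/-- **The Tate conjecture for the products of the powers of an arbitrary abelian variety and an arbitrary
variety which is unrelated to it at the places of a dense set of Frobenius elements.** -/
theorem result (ℓ : ℕ) [Fact ℓ.Prime] : TateEquivalence ℓ := by
  intro V Γ H _ _ _ _ _ _ _ _ _ _ ρ χ σ CA CX C e₀ ε hρ hχ hC hP hS hodd n
  exact ⟨fun h => ⟨power_of_product hP h, factor_of_product hC σ h⟩,
    fun h => product_dense hC hρ hχ hS hodd n h.1 h.2⟩

end Pool.Agent.Results.MP_90d181_ag.UnrelatedAtManyPlaces
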